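import Pool.Agent.Y788.HA.Rel

set_option autoImplicit false

/-! The universal Hopf algebra with a comodule and an invariant trilinear form. -/

namespace Pool.Agent.Y788.HA

open TensorProduct

section

variable {k : Type} [CommRing k] {I : Type} [Fintype I] [DecidableEq I]

/-- Generators of the free algebra. -/
def fg (k : Type) [CommRing k] {I : Type} (i : ℕ) (o a : I) : FreeAlgebra k (ℕ × I × I) :=
  FreeAlgebra.ι k (i, o, a)

/-- The defining relations. -/
inductive RelH (T : ℕ → I → I → I → k) :
    FreeAlgebra k (ℕ × I × I) → FreeAlgebra k (ℕ × I × I) → Prop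
  | ev (i : ℕ) (a b : I) : RelH T (evr (fg k) i a b) 0
  | co (i : ℕ) (a b : I) : RelH T (cor (fg k) i a b) 0
  | ef (m : ℕ) (c a b : I) : RelH T (Er T (fg k) m c a b) 0
  | jf (m : ℕ) (c a b : I) : RelH T (Ir T (fg k) m c a b) 0

/-- The universal Hopf algebra. -/
def H (T : ℕ → I → I → I → k) : Type := RingQuot (RelH T)

variable (T : ℕ → I → I → I → k)

noncomputable instance : Ring (H T) := inferInstanceAs (Ring (RingQuot (RelH T)))
noncomputable instance : Algebra k (H T) := inferInstanceAs (Algebra k (RingQuot (RelH T)))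

/-- The quotient map. -/
noncomputable def mkH : FreeAlgebra k (ℕ × I × I) →ₐ[k] H T := RingQuot.mkAlgHom k (RelH T)

/-- The generators. -/
noncomputable def G (i : ℕ) (o a : I) : H T := mkH T (fg k i o a)

lemma G_evr (i : ℕ) (a b : I) : evr (G T) i a b = 0 := by
  have h := RingQuot.mkAlgHom_rel k (RelH.ev (T := T) i a b)
  have h2 := map_evr (x := fg k) (mkH T) i a b
  rw [map_zero] at h
  exact h2.symm.trans h

lemma G_cor (i : ℕ) (a b : I) : cor (G T) i a b = 0 := by
  have h := RingQuot.mkAlgHom_rel k (RelH.co (T := T) i a b)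
  have h2 := map_cor (x := fg k) (mkH T) i a b
  rw [map_zero] at h
  exact h2.symm.trans h

lemma G_Er (m : ℕ) (c a b : I) : Er T (G T) m c a b = 0 := by
  have h := RingQuot.mkAlgHom_rel k (RelH.ef (T := T) m c a b)
  have h2 := map_Er (T := T) (x := fg k) (mkH T) m c a b
  rw [map_zero] at h
  exact h2.symm.trans h

lemma G_Ir (m : ℕ) (c a b : I) : Ir T (G T) m c a b = 0 := by
  have h := RingQuot.mkAlgHom_rel k (RelH.jf (T := T) m c a b)
  have h2 := map_Ir (T := T) (x := fg k) (mkH T) m c a b
  rw [map_zero] at h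
  exact h2.symm.trans h

lemma G_ev (i : ℕ) (a b : I) : ∑ o, G T (i + 1) o a * G T i o b = if a = b then 1 else 0 :=
  sub_eq_zero.mp (G_evr T i a b)

lemma G_co (i : ℕ) (o o' : I) : ∑ a, G T i o a * G T (i + 1) o' a = if o = o' then 1 else 0 :=
  sub_eq_zero.mp (G_cor T i o o')

lemma G_E (m : ℕ) (c a b : I) :
    ∑ q : I × I, T m q.1 q.2 c • (G T (lev (m + 2)) q.1 a * G T (lev (m + 1)) q.2 b) =
    ∑ l, T m a b l • G T (lev m + 1) c l :=
  sub_eq_zero.mp (G_Er T m c a b)

lemma G_I (m : ℕ) (c o o' : I) :
    ∑ q : I × I, T (m + 2) q.1 q.2 c • (G T (lev m + 1) o q.2 * G T (lev (m + 1) + 1) o' q.1) =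
    ∑ l, T (m + 2) o' o l • G T (lev (m + 2)) l c :=
  sub_eq_zero.mp (G_Ir T m c o o')

variable {T}

/-- The universal property. -/
noncomputable def liftH {B : Type} [Ring B] [Algebra k B] (x : ℕ → I → I → B)
    (h1 : ∀ i a b, evr x i a b = 0) (h2 : ∀ i a b, cor x i a b = 0)
    (h3 : ∀ m c a b, Er T x m c a b = 0) (h4 : ∀ m c a b, Ir T x m c a b = 0) : H T →ₐ[k] B :=
  RingQuot.liftAlgHom k ⟨FreeAlgebra.lift k (fun p => x p.1 p.2.1 p.2.2), by
    have e : (fun i o a => FreeAlgebra.lift k (fun p : ℕ × I × I => x p.1 p.2.1 p.2.2)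
        (fg k i o a)) = x := by
      funext i o a
      exact FreeAlgebra.lift_ι_apply _ _
    intro u v huv
    rw [show FreeAlgebra.lift k (fun p : ℕ × I × I => x p.1 p.2.1 p.2.2) v = 0 by
      cases huv <;> exact map_zero _]
    induction huv with
    | ev i a b => rw [map_evr, e, h1]
    | co i a b => rw [map_cor, e, h2]
    | ef m c a b => rw [map_Er, e, h3]
    | jf m c a b => rw [map_Ir, e, h4]⟩

@[simp] lemma liftH_G {B : Type} [Ring B] [Algebra k B] (x : ℕ → I → I → B)
    (h1 : ∀ i a b, evr x i a b = 0) (h2 : ∀ i a b, cor x i a b = 0)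
    (h3 : ∀ m c a b, Er T x m c a b = 0) (h4 : ∀ m c a b, Ir T x m c a b = 0)
    (i : ℕ) (o a : I) : liftH x h1 h2 h3 h4 (G T i o a) = x i o a :=
  (RingQuot.liftAlgHom_mkAlgHom_apply k _ _ _).trans (FreeAlgebra.lift_ι_apply _ _)

lemma homH_ext {B : Type} [Ring B] [Algebra k B] {f f' : H T →ₐ[k] B}
    (h : ∀ i o a, f (G T i o a) = f' (G T i o a)) : f = f' := by
  apply RingQuot.ringQuot_ext'
  apply FreeAlgebra.hom_ext
  funext p
  exact h p.1 p.2.1 p.2.2

lemma mkH_surjective : Function.Surjective (mkH T) :=
  RingQuot.mkAlgHom_surjective k _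

/-- Induction on elements. -/
lemma indH {P : H T → Prop} (h0 : ∀ c : k, P (algebraMap k _ c))
    (hg : ∀ i o a, P (G T i o a)) (hm : ∀ a b, P a → P b → P (a * b))
    (ha : ∀ a b, P a → P b → P (a + b)) (x : H T) : P x := by
  obtain ⟨y, rfl⟩ := mkH_surjective x
  induction y using FreeAlgebra.induction with
  | grade0 c => rw [AlgHom.commutes]; exact h0 c
  | grade1 p => exact hg p.1 p.2.1 p.2.2
  | mul a b h1 h2 => rw [map_mul]; exact hm _ _ h1 h2
  | add a b h1 h2 => rw [map_add]; exact ha _ _ h1 h2

/-- The matrix comultiplication. -/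
noncomputable def dx (T : ℕ → I → I → I → k) (i : ℕ) (o a : I) : H T ⊗[k] H T :=
  ∑ l, G T i o l ⊗ₜ[k] G T i l a

lemma dx_mul (i j : ℕ) (a b c d : I) : dx T i a b * dx T j c d =
    ∑ p, ∑ r, (G T i a p * G T j c r) ⊗ₜ[k] (G T i p b * G T j r d) := by
  simp only [dx, Finset.sum_mul_sum, Algebra.TensorProduct.tmul_mul_tmul]

lemma dx_ev (i : ℕ) (a b : I) : evr (dx T) i a b = 0 := by
  rw [evr, sub_eq_zero]
  simp only [dx_mul]
  calc ∑ l, ∑ p, ∑ r, (G T (i + 1) l p * G T i l r) ⊗ₜ[k] (G T (i + 1) p a * G T i r b)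
      = ∑ p, ∑ r, (∑ l, G T (i + 1) l p * G T i l r) ⊗ₜ[k] (G T (i + 1) p a * G T i r b) := by
        rw [Finset.sum_comm]
        refine Finset.sum_congr rfl fun p _ => ?_
        rw [Finset.sum_comm]
        refine Finset.sum_congr rfl fun r _ => ?_
        rw [TensorProduct.sum_tmul]
    _ = ∑ p, 1 ⊗ₜ[k] (G T (i + 1) p a * G T i p b) := by
        refine Finset.sum_congr rfl fun p _ => ?_
        rw [Finset.sum_eq_single p]
        · rw [G_ev, if_pos rfl]
        · intro r _ hr
          rw [G_ev, if_neg (Ne.symm hr), TensorProduct.zero_tmul]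
        · simp
    _ = if a = b then 1 else 0 := by
        rw [← TensorProduct.tmul_sum, G_ev]
        split_ifs
        · rfl
        · simp

lemma dx_co (i : ℕ) (o o' : I) : cor (dx T) i o o' = 0 := by
  rw [cor, sub_eq_zero]
  simp only [dx_mul]
  calc ∑ l, ∑ p, ∑ r, (G T i o p * G T (i + 1) o' r) ⊗ₜ[k] (G T i p l * G T (i + 1) r l)
      = ∑ p, ∑ r, (G T i o p * G T (i + 1) o' r) ⊗ₜ[k] (∑ l, G T i p l * G T (i + 1) r l) := by
        rw [Finset.sum_comm]
        refine Finset.sum_congr rfl fun p _ => ?_
        rw [Finset.sum_comm]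
        refine Finset.sum_congr rfl fun r _ => ?_
        rw [TensorProduct.tmul_sum]
    _ = ∑ p, (G T i o p * G T (i + 1) o' p) ⊗ₜ[k] 1 := by
        refine Finset.sum_congr rfl fun p _ => ?_
        rw [Finset.sum_eq_single p]
        · rw [G_co, if_pos rfl]
        · intro r _ hr
          rw [G_co, if_neg (Ne.symm hr), TensorProduct.tmul_zero]
        · simp
    _ = if o = o' then 1 else 0 := by
        rw [← TensorProduct.sum_tmul, G_co]
        split_ifs
        · rfl
        · simp

lemma dx_E (m : ℕ) (c a b : I) : Er T (dx T) m c a b = 0 := by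
  rw [Er, sub_eq_zero]
  simp only [dx_mul]
  calc ∑ q : I × I, T m q.1 q.2 c • ∑ p, ∑ r,
        (G T (lev (m + 2)) q.1 p * G T (lev (m + 1)) q.2 r) ⊗ₜ[k]
          (G T (lev (m + 2)) p a * G T (lev (m + 1)) r b)
      = ∑ p, ∑ r, (∑ q : I × I, T m q.1 q.2 c •
          (G T (lev (m + 2)) q.1 p * G T (lev (m + 1)) q.2 r)) ⊗ₜ[k]
          (G T (lev (m + 2)) p a * G T (lev (m + 1)) r b) := by
        simp only [Finset.smul_sum]
        rw [Finset.sum_comm]
        refine Finset.sum_congr rfl fun p _ => ?_
        rw [Finset.sum_comm]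
        refine Finset.sum_congr rfl fun r _ => ?_
        rw [TensorProduct.sum_tmul]
        refine Finset.sum_congr rfl fun q _ => ?_
        rw [TensorProduct.smul_tmul']
    _ = ∑ p, ∑ r, ∑ l, T m p r l • (G T (lev m + 1) c l ⊗ₜ[k]
          (G T (lev (m + 2)) p a * G T (lev (m + 1)) r b)) := by
        refine Finset.sum_congr rfl fun p _ => Finset.sum_congr rfl fun r _ => ?_
        rw [G_E, TensorProduct.sum_tmul]
        refine Finset.sum_congr rfl fun l _ => ?_
        rw [TensorProduct.smul_tmul']
    _ = ∑ l, ∑ q : I × I, T m q.1 q.2 l • (G T (lev m + 1) c l ⊗ₜ[k]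
          (G T (lev (m + 2)) q.1 a * G T (lev (m + 1)) q.2 b)) := by
        rw [Finset.sum_comm]
        simp only [Fintype.sum_prod_type]
        rw [Finset.sum_comm]
        rw [Finset.sum_comm]
        conv_lhs =>
          enter [2, p]
          rw [Finset.sum_comm]
        rw [Finset.sum_comm]
        refine Finset.sum_congr rfl fun l _ => ?_
        rw [Finset.sum_comm]
    _ = ∑ l, ∑ l', T m a b l' • (G T (lev m + 1) c l ⊗ₜ[k] G T (lev m + 1) l l') := by
        refine Finset.sum_congr rfl fun l _ => ?_
        simp only [← TensorProduct.tmul_smul]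
        rw [← TensorProduct.tmul_sum, ← TensorProduct.tmul_sum, G_E]
    _ = ∑ l', T m a b l' • dx T (lev m + 1) c l' := by
        rw [Finset.sum_comm]
        refine Finset.sum_congr rfl fun l' _ => ?_
        rw [dx, Finset.smul_sum]

lemma dx_I (m : ℕ) (c o o' : I) : Ir T (dx T) m c o o' = 0 := by
  rw [Ir, sub_eq_zero]
  simp only [dx_mul]
  calc ∑ q : I × I, T (m + 2) q.1 q.2 c • ∑ p, ∑ r,
        (G T (lev m + 1) o p * G T (lev (m + 1) + 1) o' r) ⊗ₜ[k]
          (G T (lev m + 1) p q.2 * G T (lev (m + 1) + 1) r q.1)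
      = ∑ p, ∑ r, (G T (lev m + 1) o p * G T (lev (m + 1) + 1) o' r) ⊗ₜ[k]
          (∑ q : I × I, T (m + 2) q.1 q.2 c •
            (G T (lev m + 1) p q.2 * G T (lev (m + 1) + 1) r q.1)) := by
        simp only [Finset.smul_sum]
        rw [Finset.sum_comm]
        refine Finset.sum_congr rfl fun p _ => ?_
        rw [Finset.sum_comm]
        refine Finset.sum_congr rfl fun r _ => ?_
        rw [TensorProduct.tmul_sum]
        refine Finset.sum_congr rfl fun q _ => ?_
        rw [TensorProduct.tmul_smul]
    _ = ∑ p, ∑ r, ∑ l, T (m + 2) r p l •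
          ((G T (lev m + 1) o p * G T (lev (m + 1) + 1) o' r) ⊗ₜ[k] G T (lev (m + 2)) l c) := by
        refine Finset.sum_congr rfl fun p _ => Finset.sum_congr rfl fun r _ => ?_
        rw [G_I, TensorProduct.tmul_sum]
        refine Finset.sum_congr rfl fun l _ => ?_
        rw [TensorProduct.tmul_smul]
    _ = ∑ l, ∑ q : I × I, T (m + 2) q.1 q.2 l •
          ((G T (lev m + 1) o q.2 * G T (lev (m + 1) + 1) o' q.1) ⊗ₜ[k]
            G T (lev (m + 2)) l c) := by
        simp only [Fintype.sum_prod_type]
        conv_lhs =>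
          enter [2, p]
          rw [Finset.sum_comm]
        rw [Finset.sum_comm]
        refine Finset.sum_congr rfl fun l _ => ?_
        rw [Finset.sum_comm]
    _ = ∑ l, ∑ l', T (m + 2) o' o l' •
          (G T (lev (m + 2)) l' l ⊗ₜ[k] G T (lev (m + 2)) l c) := by
        refine Finset.sum_congr rfl fun l _ => ?_
        simp only [TensorProduct.smul_tmul']
        rw [← TensorProduct.sum_tmul, ← TensorProduct.sum_tmul, G_I]
    _ = ∑ l', T (m + 2) o' o l' • dx T (lev (m + 2)) l' c := by
        rw [Finset.sum_comm]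
        refine Finset.sum_congr rfl fun l' _ => ?_
        rw [dx, Finset.smul_sum]

/-- The comultiplication. -/
noncomputable def comulH : H T →ₐ[k] H T ⊗[k] H T := liftH (dx T) dx_ev dx_co dx_E dx_I

@[simp] lemma comulH_G (i : ℕ) (o a : I) :
    comulH (G T i o a) = ∑ l, G T i o l ⊗ₜ[k] G T i l a := liftH_G _ _ _ _ _ _ _ _

/-- The counit. -/
noncomputable def counitH : H T →ₐ[k] k :=
  liftH (fun _ i j => if i = j then 1 else 0)
    (by intro i a b; simp [evr, eq_comm])
    (by intro i a b; simp [cor, eq_comm])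
    (by
      intro m c a b
      simp only [Er]
      rw [sub_eq_zero, Fintype.sum_prod_type, Finset.sum_eq_single a, Finset.sum_eq_single b]
      · simp
      · intro r _ hr; simp [hr]
      · simp
      · intro r _ hr; simp [hr]
      · simp)
    (by
      intro m c a b
      simp only [Ir]
      rw [sub_eq_zero, Fintype.sum_prod_type, Finset.sum_eq_single b, Finset.sum_eq_single a]
      · simp
      · intro r _ hr; simp [Ne.symm hr]
      · simp
      · intro r _ hr; simp [Ne.symm hr]
      · simp)

@[simp] lemma counitH_G (i : ℕ) (o a : I) :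
    counitH (G T i o a) = if o = a then 1 else 0 := liftH_G _ _ _ _ _ _ _ _

/-- The images of the generators under the antipode. -/
noncomputable def sx (T : ℕ → I → I → I → k) (i : ℕ) (o a : I) : (H T)ᵐᵒᵖ :=
  MulOpposite.op (G T (i + 1) a o)

lemma sx_ev (i : ℕ) (a b : I) : evr (sx T) i a b = 0 := by
  have h := G_co T (i + 1) b a
  rw [evr, sub_eq_zero]
  simp only [sx, ← MulOpposite.op_mul]
  rw [← Finset.op_sum, h]
  by_cases hab : a = b
  · simp [hab]
  · simp [hab, Ne.symm hab]

lemma sx_co (i : ℕ) (a b : I) : cor (sx T) i a b = 0 := by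
  have h := G_ev T (i + 1) b a
  rw [cor, sub_eq_zero]
  simp only [sx, ← MulOpposite.op_mul]
  rw [← Finset.op_sum, h]
  by_cases hab : a = b
  · simp [hab]
  · simp [hab, Ne.symm hab]

section rot

variable (rot : ∀ m u v w, T (m + 1) u v w = T m v w u)

include rot

lemma sx_E (m : ℕ) (c a b : I) : Er T (sx T) m c a b = 0 := by
  have h := G_I T (m + 1) c b a
  rw [Er, sub_eq_zero]
  simp only [sx, ← MulOpposite.op_mul, ← MulOpposite.op_smul]
  rw [← Finset.op_sum, ← Finset.op_sum]
  congr 1
  have e3 : ∀ u v w, T (m + 3) u v w = T m u v w := by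
    intro u v w
    rw [rot (m + 2), rot (m + 1), rot m]
  have e4 : lev (m + 1 + 2) = lev m + 1 + 1 := lev_add m
  simp only [show m + 1 + 2 = m + 3 from rfl, e3] at h
  rw [show lev (m + 3) = lev m + 1 + 1 from lev_add m] at h
  exact h

omit rot in
lemma sx_I (m : ℕ) (c a b : I) : Ir T (sx T) m c a b = 0 := by
  have h := G_E T (m + 2) c b a
  rw [Ir, sub_eq_zero]
  simp only [sx, ← MulOpposite.op_mul, ← MulOpposite.op_smul]
  rw [← Finset.op_sum, ← Finset.op_sum]
  congr 1
  rw [show m + 2 + 2 = (m + 1) + 3 from rfl, show m + 2 + 1 = m + 3 from rfl,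
    lev_add, lev_add] at h
  exact h

end rot

end

/-- A form together with the rotation property. -/
structure Frm (k : Type) [CommRing k] (I : Type) where
  T : ℕ → I → I → I → k
  rot : ∀ m u v w, T (m + 1) u v w = T m v w u

variable {k : Type} [CommRing k] {I : Type} [Fintype I] [DecidableEq I] (F : Frm k I)

/-- The antipode as a homomorphism to the opposite algebra. -/
noncomputable def antiHom : H F.T →ₐ[k] (H F.T)ᵐᵒᵖ :=
  liftH (sx F.T) sx_ev sx_co (sx_E F.rot) sx_I

@[simp] lemma antiHom_G (i : ℕ) (o a : I) :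
    antiHom F (G F.T i o a) = MulOpposite.op (G F.T (i + 1) a o) := liftH_G _ _ _ _ _ _ _ _

/-- The antipode. -/
noncomputable def anti : H F.T →ₗ[k] H F.T :=
  (MulOpposite.opLinearEquiv k).symm.toLinearMap ∘ₗ (antiHom F).toLinearMap

lemma anti_apply (x : H F.T) : anti F x = MulOpposite.unop (antiHom F x) := rfl

@[simp] lemma anti_G (i : ℕ) (o a : I) : anti F (G F.T i o a) = G F.T (i + 1) a o := by
  rw [anti_apply, antiHom_G, MulOpposite.unop_op]

lemma anti_mul (x y : H F.T) : anti F (x * y) = anti F y * anti F x := by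
  simp only [anti_apply, map_mul, MulOpposite.unop_mul]

lemma anti_algebraMap (c : k) : anti F (algebraMap k (H F.T) c) = algebraMap k _ c := by
  rw [anti_apply, AlgHom.commutes]
  rfl

noncomputable instance instBialgebra (T : ℕ → I → I → I → k) : Bialgebra k (H T) :=
  Bialgebra.ofAlgHom comulH counitH
    (by
      apply homH_ext
      intro r i j
      simp only [AlgHom.comp_apply, comulH_G, map_sum, Algebra.TensorProduct.map_tmul]
      simp only [TensorProduct.sum_tmul, TensorProduct.tmul_sum, map_sum]
      rw [Finset.sum_comm]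
      rfl)
    (by
      apply homH_ext
      intro r i j
      simp only [AlgHom.comp_apply, comulH_G, map_sum, Algebra.TensorProduct.map_tmul,
        counitH_G]
      rw [Finset.sum_eq_single i]
      · simp
      · intro b _ hb
        simp [Ne.symm hb]
      · simp)
    (by
      apply homH_ext
      intro r i j
      simp only [AlgHom.comp_apply, comulH_G, map_sum, Algebra.TensorProduct.map_tmul,
        counitH_G]
      rw [Finset.sum_eq_single j]
      · simp
      · intro b _ hb
        simp [hb]
      · simp)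

lemma antipode_left (x : H F.T) :
    LinearMap.mul' k (H F.T) ((anti F).rTensor (H F.T) (comulH x)) =
      algebraMap k _ (counitH x) := by
  induction x using indH with
  | h0 c =>
    rw [AlgHom.commutes, AlgHom.commutes, Algebra.TensorProduct.algebraMap_apply]
    simp [anti_algebraMap]
  | hg r i j =>
    simp only [comulH_G, map_sum, LinearMap.rTensor_tmul, anti_G, LinearMap.mul'_apply,
      counitH_G]
    rw [G_ev]
    split_ifs <;> simp
  | ha a b ha hb => simp only [map_add, ha, hb]
  | hm a b ha hb =>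
    have key : ∀ u : H F.T ⊗[k] H F.T,
        LinearMap.mul' k (H F.T) ((anti F).rTensor (H F.T) (comulH a * u)) =
        counitH a • LinearMap.mul' k (H F.T) ((anti F).rTensor (H F.T) u) := by
      intro u
      induction u using TensorProduct.induction_on with
      | zero => simp
      | add u v hu hv => rw [mul_add, map_add, map_add, hu, hv, map_add, map_add, smul_add]
      | tmul c d =>
        have h2 : ∀ t : H F.T ⊗[k] H F.T,
            LinearMap.mul' k (H F.T) ((anti F).rTensor (H F.T) (t * (c ⊗ₜ d))) =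
            anti F c * LinearMap.mul' k (H F.T) ((anti F).rTensor (H F.T) t) * d := by
          intro t
          induction t using TensorProduct.induction_on with
          | zero => simp
          | add u v hu hv =>
            rw [add_mul, map_add, map_add, hu, hv, map_add, map_add, mul_add, add_mul]
          | tmul e f =>
            simp only [Algebra.TensorProduct.tmul_mul_tmul, LinearMap.rTensor_tmul, anti_mul,
              LinearMap.mul'_apply, mul_assoc]
        rw [h2, ha, LinearMap.rTensor_tmul, LinearMap.mul'_apply, Algebra.smul_def,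
          ← mul_assoc, Algebra.commutes]
    rw [map_mul, key, hb, map_mul, map_mul, Algebra.smul_def]

lemma antipode_right (x : H F.T) :
    LinearMap.mul' k (H F.T) ((anti F).lTensor (H F.T) (comulH x)) =
      algebraMap k _ (counitH x) := by
  induction x using indH with
  | h0 c =>
    rw [AlgHom.commutes, AlgHom.commutes, Algebra.TensorProduct.algebraMap_apply]
    simp
    rw [anti_apply]
    simp
  | hg r i j =>
    simp only [comulH_G, map_sum, LinearMap.lTensor_tmul, anti_G, LinearMap.mul'_apply,
      counitH_G]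
    rw [G_co]
    split_ifs <;> simp
  | ha a b ha hb => simp only [map_add, ha, hb]
  | hm a b ha hb =>
    have key : ∀ u : H F.T ⊗[k] H F.T,
        LinearMap.mul' k (H F.T) ((anti F).lTensor (H F.T) (u * comulH b)) =
        counitH b • LinearMap.mul' k (H F.T) ((anti F).lTensor (H F.T) u) := by
      intro u
      induction u using TensorProduct.induction_on with
      | zero => simp
      | add u v hu hv => rw [add_mul, map_add, map_add, hu, hv, map_add, map_add, smul_add]
      | tmul c d =>
        have h2 : ∀ t : H F.T ⊗[k] H F.T,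
            LinearMap.mul' k (H F.T) ((anti F).lTensor (H F.T) ((c ⊗ₜ d) * t)) =
            c * LinearMap.mul' k (H F.T) ((anti F).lTensor (H F.T) t) * anti F d := by
          intro t
          induction t using TensorProduct.induction_on with
          | zero => simp
          | add u v hu hv =>
            rw [mul_add, map_add, map_add, hu, hv, map_add, map_add, mul_add, add_mul]
          | tmul e f =>
            simp only [Algebra.TensorProduct.tmul_mul_tmul, LinearMap.lTensor_tmul, anti_mul,
              LinearMap.mul'_apply, mul_assoc]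
        rw [h2, hb, LinearMap.lTensor_tmul, LinearMap.mul'_apply, Algebra.smul_def,
          ← mul_assoc, Algebra.commutes]
    rw [map_mul, key, ha, map_mul, map_mul, Algebra.smul_def, Algebra.commutes]

/-- The Hopf algebra structure. -/
@[reducible] noncomputable def hopf : HopfAlgebra k (H F.T) where
  antipode := anti F
  mul_antipode_rTensor_comul := by
    ext x
    exact antipode_left F x
  mul_antipode_lTensor_comul := by
    ext x
    exact antipode_right F x

end Pool.Agent.Y788.HA
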