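import Pool.Agent.TH12.Hopf.Final
import Pool.Agent.Y788.HA.HopfAlg

set_option autoImplicit false

/-! The universal Hopf algebra of the trilinear form of `TH12` over an arbitrary commutative ring:
finite generation, surjectivity and non-injectivity of the antipode. -/

namespace Pool.Agent.Y788.HA

open TensorProduct
open Pool.Agent.TH12.Hopf (tb pv gen_t no_01)

section

variable (k : Type) [CommRing k]

/-- The rotated forms. -/
def Tw (m : ℕ) (u v w : Fin 12) : k := if tb (m % 3) u v w = true then 1 else 0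

variable {k}

lemma Tw_rot (m : ℕ) (u v w : Fin 12) : Tw k (m + 1) u v w = Tw k m v w u := by
  unfold Tw tb
  have h : m % 3 = 0 ∨ m % 3 = 1 ∨ m % 3 = 2 := by omega
  rcases h with h | h | h
  · have h2 : (m + 1) % 3 = 1 := by omega
    simp [h, h2]
  · have h2 : (m + 1) % 3 = 2 := by omega
    simp [h, h2]
  · have h2 : (m + 1) % 3 = 0 := by omega
    simp [h, h2]

variable (k)

/-- The form over the ring `k`. -/
def Fw : Frm k (Fin 12) := ⟨Tw k, Tw_rot⟩

/-- The Hopf algebra over the ring `k`. -/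
abbrev Hw : Type := H (Tw k)

variable {k}

lemma sum_gen {M : Type} [AddCommGroup M] [Module k M] (m : ℕ) (hm : m % 3 = 0) (l : Fin 12)
    (f : Fin 12 → M) :
    ∑ l', Tw k m (pv 0 l).1 (pv 0 l).2 l' • f l' = f l := by
  rw [Finset.sum_eq_single l]
  · rw [Tw, if_pos (by rw [hm]; exact (gen_t l).1), one_smul]
  · intro l' _ hl
    rw [Tw, if_neg (by rw [hm, (gen_t l).2 l' hl]; decide), zero_smul]
  · simp

/-- The pairs which isolate an index in the third form. -/
def pr (l : Fin 12) : Fin 12 × Fin 12 :=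
  ![(4, 5), (2, 4), (3, 7), (0, 7), (2, 8), (1, 5), (0, 5), (3, 8), (0, 0), (2, 7), (1, 4),
    (1, 7)] l

lemma gen_t2 : ∀ l : Fin 12, tb 2 (pr l).1 (pr l).2 l = true ∧
    ∀ l' : Fin 12, l' ≠ l → tb 2 (pr l).1 (pr l).2 l' = false := by
  decide +kernel

lemma sum_gen2 {M : Type} [AddCommGroup M] [Module k M] (m : ℕ) (hm : m % 3 = 2) (l : Fin 12)
    (f : Fin 12 → M) :
    ∑ l', Tw k m (pr l).1 (pr l).2 l' • f l' = f l := by
  rw [Finset.sum_eq_single l]
  · rw [Tw, if_pos (by rw [hm]; exact (gen_t2 l).1), one_smul]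
  · intro l' _ hl
    rw [Tw, if_neg (by rw [hm, (gen_t2 l).2 l' hl]; decide), zero_smul]
  · simp

/-- The subalgebra generated by the first layer. -/
noncomputable def Sub0 : Subalgebra k (Hw k) :=
  Algebra.adjoin k (Set.range (fun p : Fin 12 × Fin 12 => G (Tw k) 0 p.1 p.2))

lemma G_mem (h : ℕ) : (∀ o a, G (Tw k) (2 * h) o a ∈ Sub0 (k := k)) ∧
    (∀ o a, G (Tw k) (2 * h + 1) o a ∈ Sub0 (k := k)) := by
  have step1 : ∀ h, (∀ o a, G (Tw k) (2 * h) o a ∈ Sub0 (k := k)) →
      ∀ o a, G (Tw k) (2 * h + 1) o a ∈ Sub0 (k := k) := by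
    intro h hh c l
    have h1 := G_E (Tw k) (3 * h) c (pv 0 l).1 (pv 0 l).2
    rw [sum_gen (3 * h) (by omega) l (fun l' => G (Tw k) (lev (3 * h) + 1) c l')] at h1
    rw [show lev (3 * h + 2) = 2 * h by unfold lev; omega,
      show lev (3 * h + 1) = 2 * h by unfold lev; omega,
      show lev (3 * h) = 2 * h by unfold lev; omega] at h1
    rw [← h1]
    refine Subalgebra.sum_mem _ fun q _ => Subalgebra.smul_mem _ ?_ _
    exact Subalgebra.mul_mem _ (hh _ _) (hh _ _)
  have step2 : ∀ h, (∀ o a, G (Tw k) (2 * h + 1) o a ∈ Sub0 (k := k)) →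
      ∀ o a, G (Tw k) (2 * (h + 1)) o a ∈ Sub0 (k := k) := by
    intro h hh l c
    have h1 := G_I (Tw k) (3 * h + 1) c (pv 0 l).2 (pv 0 l).1
    rw [sum_gen (3 * h + 1 + 2) (by omega) l (fun l' => G (Tw k) (lev (3 * h + 1 + 2)) l' c)] at h1
    rw [show lev (3 * h + 1 + 2) = 2 * (h + 1) by unfold lev; omega,
      show lev (3 * h + 1 + 1) = 2 * h by unfold lev; omega,
      show lev (3 * h + 1) = 2 * h by unfold lev; omega] at h1
    rw [← h1]
    refine Subalgebra.sum_mem _ fun q _ => Subalgebra.smul_mem _ ?_ _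
    exact Subalgebra.mul_mem _ (hh _ _) (hh _ _)
  induction h with
  | zero =>
    have h0 : ∀ o a, G (Tw k) (2 * 0) o a ∈ Sub0 (k := k) := fun o a =>
      Algebra.subset_adjoin ⟨(o, a), rfl⟩
    exact ⟨h0, step1 0 h0⟩
  | succ h ih =>
    have h0 := step2 h ih.2
    exact ⟨h0, step1 _ h0⟩

lemma G_mem' (i : ℕ) (o a : Fin 12) : G (Tw k) i o a ∈ Sub0 (k := k) := by
  obtain ⟨h, rfl | rfl⟩ : ∃ h, i = 2 * h ∨ i = 2 * h + 1 := ⟨i / 2, by omega⟩
  · exact (G_mem h).1 o a
  · exact (G_mem h).2 o a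

theorem Sub0_top : Sub0 (k := k) = ⊤ := by
  rw [Algebra.eq_top_iff]
  intro x
  induction x using indH with
  | h0 c => exact Subalgebra.algebraMap_mem _ c
  | hg i o a => exact G_mem' i o a
  | hm a b ha hb => exact Subalgebra.mul_mem _ ha hb
  | ha a b ha hb => exact Subalgebra.add_mem _ ha hb

/-- The Hopf algebra is generated by 144 elements. -/
theorem finiteType : Algebra.FiniteType k (Hw k) := by
  refine ⟨⟨(Set.finite_range (fun p : Fin 12 × Fin 12 => G (Tw k) 0 p.1 p.2)).toFinset, ?_⟩⟩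
  rw [Set.Finite.coe_toFinset]
  exact Sub0_top

/-- The first layer is in the algebra generated by the second one. -/
lemma G_zero (l c : Fin 12) : G (Tw k) 0 l c = ∑ q : Fin 12 × Fin 12, Tw k 2 q.1 q.2 c •
    (G (Tw k) 1 (pr l).2 q.2 * G (Tw k) 1 (pr l).1 q.1) := by
  have h1 := G_I (Tw k) 0 c (pr l).2 (pr l).1
  rw [sum_gen2 (0 + 2) rfl l (fun l' => G (Tw k) (lev (0 + 2)) l' c)] at h1
  exact h1.symm

/-- The antipode is surjective. -/
theorem anti_surjective : Function.Surjective (anti (Fw k)) := by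
  intro x
  induction x using indH with
  | h0 c => exact ⟨algebraMap k _ c, anti_algebraMap (Fw k) c⟩
  | hg i o a =>
    cases i with
    | zero =>
      have key : anti (Fw k) (∑ q : Fin 12 × Fin 12, Tw k 2 q.1 q.2 a •
          (G (Fw k).T 0 q.1 (pr o).1 * G (Fw k).T 0 q.2 (pr o).2)) = G (Tw k) 0 o a := by
        rw [map_sum]
        refine Eq.trans ?_ (G_zero o a).symm
        refine Finset.sum_congr rfl fun q _ => ?_
        rw [map_smul, anti_mul, anti_G, anti_G]
        rfl
      exact ⟨_, key⟩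
    | succ i => exact ⟨G (Tw k) i a o, anti_G (Fw k) i a o⟩
  | hm a b ha hb =>
    obtain ⟨a', rfl⟩ := ha
    obtain ⟨b', rfl⟩ := hb
    exact ⟨b' * a', anti_mul (Fw k) b' a'⟩
  | ha a b ha hb =>
    obtain ⟨a', rfl⟩ := ha
    obtain ⟨b', rfl⟩ := hb
    exact ⟨a' + b', map_add _ _ _⟩

/-- The element killed by the antipode. -/
noncomputable def cw : Hw k :=
  ∑ q : Fin 12 × Fin 12, Tw k 2 q.1 q.2 5 • (G (Tw k) 0 q.1 0 * G (Tw k) 0 q.2 1)

theorem anti_cw : anti (Fw k) cw = 0 := by
  have h1 := G_I (Tw k) 0 5 1 0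
  have h2 : ∑ l, Tw k (0 + 2) 0 1 l • G (Tw k) (lev (0 + 2)) l 5 = 0 := by
    apply Finset.sum_eq_zero
    intro l _
    rw [Tw, if_neg (by rw [show (0 + 2) % 3 = 2 from rfl, no_01 l]; decide), zero_smul]
  rw [h2] at h1
  have key : anti (Fw k) (∑ q : Fin 12 × Fin 12, Tw k 2 q.1 q.2 5 •
      (G (Fw k).T 0 q.1 0 * G (Fw k).T 0 q.2 1)) = 0 := by
    rw [map_sum]
    refine Eq.trans ?_ h1
    refine Finset.sum_congr rfl fun q _ => ?_
    rw [map_smul, anti_mul, anti_G, anti_G]
    rfl
  exact key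

/-! ### Comparison with the Hopf algebra over a residue field -/

section compare

variable (K : Type) [Field K] [Algebra k K]

/-- The Hopf algebra over the field, as an algebra over the ring. -/
def BK (K : Type) [Field K] : Type := Pool.Agent.TH12.Hopf.Hv K

noncomputable instance : Ring (BK K) := inferInstanceAs (Ring (Pool.Agent.TH12.Hopf.Hv K))
noncomputable instance : Algebra K (BK K) :=
  inferInstanceAs (Algebra K (Pool.Agent.TH12.Hopf.Hv K))
noncomputable instance instAlgBK : Algebra k (BK K) :=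
  Algebra.compHom (BK K) (algebraMap k K)

lemma smul_Tw (m : ℕ) (u v w : Fin 12) (x : BK K) :
    Tw k m u v w • x = Pool.Agent.TH12.Hopf.Tv K m u v w • x := by
  unfold Tw Pool.Agent.TH12.Hopf.Tv
  split_ifs
  · rw [one_smul, one_smul]
  · rw [zero_smul, zero_smul]

/-- The generators over the field. -/
noncomputable def gK (i : ℕ) (o a : Fin 12) : BK K :=
  Pool.Agent.TH12.Hopf.G (Pool.Agent.TH12.Hopf.Tv K) i o a

/-- The comparison map. -/
noncomputable def cmp : Hw k →ₐ[k] BK K :=
  liftH (T := Tw k) (gK K)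
    (fun i a b => Pool.Agent.TH12.Hopf.G_evr (Pool.Agent.TH12.Hopf.Tv K) i a b)
    (fun i a b => Pool.Agent.TH12.Hopf.G_cor (Pool.Agent.TH12.Hopf.Tv K) i a b)
    (fun m c a b => by
      have h := Pool.Agent.TH12.Hopf.G_Er (Pool.Agent.TH12.Hopf.Tv K) m c a b
      unfold Er
      simp only [smul_Tw]
      exact h)
    (fun m c a b => by
      have h := Pool.Agent.TH12.Hopf.G_Ir (Pool.Agent.TH12.Hopf.Tv K) m c a b
      unfold Ir
      simp only [smul_Tw]
      exact h)

lemma cmp_G (i : ℕ) (o a : Fin 12) : cmp (k := k) K (G (Tw k) i o a) = gK K i o a :=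
  liftH_G _ _ _ _ _ _ _ _

lemma cmp_cw : cmp (k := k) K cw = Pool.Agent.TH12.Hopf.cv (k := K) := by
  unfold cw Pool.Agent.TH12.Hopf.cv
  rw [map_sum]
  refine Finset.sum_congr rfl fun q _ => ?_
  rw [map_smul, map_mul, cmp_G, cmp_G]
  exact smul_Tw K _ _ _ _ _

end compare

theorem cw_ne [Nontrivial k] : cw (k := k) ≠ 0 := by
  obtain ⟨M, hM⟩ := Ideal.exists_maximal k
  let _ : Field (k ⧸ M) := Ideal.Quotient.field M
  intro h
  have h1 := cmp_cw (k := k) (k ⧸ M)
  rw [h, map_zero] at h1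
  exact Pool.Agent.TH12.Hopf.cv_ne (k := k ⧸ M) h1.symm

theorem anti_not_injective [Nontrivial k] : ¬ Function.Injective (anti (Fw k)) := by
  intro h
  apply cw_ne (k := k)
  exact h (anti_cw.trans (map_zero (anti (Fw k))).symm)

end

/-! ### Kernels of the powers of a surjective, not injective antihomomorphism -/

section powers

variable {k H : Type} [CommRing k] [Ring H] [Algebra k H] (f : H →ₗ[k] H)

lemma ker_lt (hs : Function.Surjective f) (hi : ¬ Function.Injective f) (n : ℕ) :
    LinearMap.ker (f ^ n) < LinearMap.ker (f ^ (n + 1)) := by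
  obtain ⟨x, hx, hx0⟩ : ∃ x, f x = 0 ∧ x ≠ 0 := by
    by_contra hcon
    push Not at hcon
    exact hi ((injective_iff_map_eq_zero f).2 hcon)
  have hsn : Function.Surjective (f ^ n) := by
    rw [Module.End.coe_pow]
    exact hs.iterate n
  obtain ⟨y, hy⟩ := hsn x
  refine lt_of_le_of_ne ?_ ?_
  · intro z hz
    rw [LinearMap.mem_ker] at hz ⊢
    rw [pow_succ', Module.End.mul_apply, hz, map_zero]
  · intro h
    have h1 : y ∈ LinearMap.ker (f ^ (n + 1)) := by
      rw [LinearMap.mem_ker, pow_succ', Module.End.mul_apply, hy, hx]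
    rw [← h, LinearMap.mem_ker, hy] at h1
    exact hx0 h1

lemma ker_ideal (hm : ∀ x y, f (x * y) = f y * f x) (n : ℕ) :
    ∀ a x, (f ^ n) x = 0 → (f ^ n) (a * x) = 0 ∧ (f ^ n) (x * a) = 0 := by
  induction n with
  | zero =>
    intro a x hx
    rw [pow_zero, Module.End.one_apply] at hx
    subst hx
    simp
  | succ n ih =>
    intro a x hx
    rw [pow_succ, Module.End.mul_apply] at hx
    obtain ⟨h1, h2⟩ := ih (f a) (f x) hx
    rw [pow_succ, Module.End.mul_apply, Module.End.mul_apply, hm, hm]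
    exact ⟨h2, h1⟩

/-- The kernel of a power, as a left ideal. -/
def kI (hm : ∀ x y, f (x * y) = f y * f x) (n : ℕ) : Ideal H where
  carrier := {x | (f ^ n) x = 0}
  add_mem' := by
    intro a b ha hb
    have h1 : (f ^ n) a = 0 := ha
    have h2 : (f ^ n) b = 0 := hb
    show (f ^ n) (a + b) = 0
    rw [map_add, h1, h2, add_zero]
  zero_mem' := by
    show (f ^ n) 0 = 0
    rw [map_zero]
  smul_mem' := by
    intro c x hx
    exact (ker_ideal f hm n c x hx).1

/-- The kernel of a power, as a right ideal. -/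
def kJ (hm : ∀ x y, f (x * y) = f y * f x) (n : ℕ) : Ideal Hᵐᵒᵖ where
  carrier := {x | (f ^ n) x.unop = 0}
  add_mem' := by
    intro a b ha hb
    have h1 : (f ^ n) a.unop = 0 := ha
    have h2 : (f ^ n) b.unop = 0 := hb
    show (f ^ n) (a.unop + b.unop) = 0
    rw [map_add, h1, h2, add_zero]
  zero_mem' := by
    show (f ^ n) 0 = 0
    rw [map_zero]
  smul_mem' := by
    intro c x hx
    exact (ker_ideal f hm n c.unop x.unop hx).2

lemma not_noeth (hs : Function.Surjective f) (hi : ¬ Function.Injective f)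
    (hm : ∀ x y, f (x * y) = f y * f x) : ¬ IsNoetherianRing H := by
  intro hN
  have hmono : Monotone (kI f hm) := monotone_nat_of_le_succ fun n x hx =>
    (ker_lt f hs hi n).le hx
  obtain ⟨n, hn⟩ := monotone_stabilizes_iff_noetherian.2 hN ⟨kI f hm, hmono⟩
  have h1 := hn (n + 1) (Nat.le_succ n)
  apply (ker_lt f hs hi n).ne
  ext x
  have h2 : x ∈ kI f hm n ↔ x ∈ kI f hm (n + 1) := by
    change (kI f hm) n = (kI f hm) (n + 1) at h1
    rw [h1]
  exact h2

lemma not_noeth' (hs : Function.Surjective f) (hi : ¬ Function.Injective f)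
    (hm : ∀ x y, f (x * y) = f y * f x) : ¬ IsNoetherianRing Hᵐᵒᵖ := by
  intro hN
  have hmono : Monotone (kJ f hm) := monotone_nat_of_le_succ fun n x hx =>
    (ker_lt f hs hi n).le hx
  obtain ⟨n, hn⟩ := monotone_stabilizes_iff_noetherian.2 hN ⟨kJ f hm, hmono⟩
  have h1 := hn (n + 1) (Nat.le_succ n)
  apply (ker_lt f hs hi n).ne
  ext x
  have h2 : MulOpposite.op x ∈ kJ f hm n ↔ MulOpposite.op x ∈ kJ f hm (n + 1) := by
    change (kJ f hm) n = (kJ f hm) (n + 1) at h1
    rw [h1]
  exact h2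

end powers

/-! ### The square of the antipode -/

section square

variable {k : Type} [CommRing k] {I : Type} [Fintype I] [DecidableEq I] (F : Frm k I)

/-- The square of the antipode as an algebra homomorphism. -/
noncomputable def sqHom : H F.T →ₐ[k] H F.T :=
  AlgHom.ofLinearMap (anti F ∘ₗ anti F)
    (by
      show anti F (anti F 1) = 1
      have h := anti_algebraMap F (1 : k)
      rw [map_one] at h
      rw [h, h])
    (by
      intro x y
      show anti F (anti F (x * y)) = anti F (anti F x) * anti F (anti F y)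
      rw [anti_mul, anti_mul])

lemma sqHom_apply (x : H F.T) : sqHom F x = anti F (anti F x) := rfl

lemma sqHom_G (i : ℕ) (o a : I) : sqHom F (G F.T i o a) = G F.T (i + 2) o a := by
  rw [sqHom_apply, anti_G, anti_G]

/-- The square of the antipode as a bialgebra homomorphism. -/
noncomputable def sqBi : H F.T →ₐc[k] H F.T :=
  BialgHom.ofAlgHom (sqHom F)
    (by
      apply homH_ext
      intro i o a
      rw [AlgHom.comp_apply, sqHom_G]
      exact (counitH_G (T := F.T) (i + 2) o a).trans (counitH_G (T := F.T) i o a).symm)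
    (by
      apply homH_ext
      intro i o a
      rw [AlgHom.comp_apply, AlgHom.comp_apply, sqHom_G]
      have h1 : Bialgebra.comulAlgHom k (H F.T) (G F.T i o a) =
        ∑ l, G F.T i o l ⊗ₜ[k] G F.T i l a := comulH_G (T := F.T) i o a
      have h2 : Bialgebra.comulAlgHom k (H F.T) (G F.T (i + 2) o a) =
        ∑ l, G F.T (i + 2) o l ⊗ₜ[k] G F.T (i + 2) l a := comulH_G (T := F.T) (i + 2) o a
      rw [h1, h2, map_sum]
      refine Finset.sum_congr rfl fun l _ => ?_
      rw [Algebra.TensorProduct.map_tmul, sqHom_G, sqHom_G])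

end square

end Pool.Agent.Y788.HA
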