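import Mathlib

set_option autoImplicit false

/-! The relations of the universal Hopf algebra with a comodule and an invariant trilinear form,
as identities in an arbitrary algebra. -/

namespace Pool.Agent.Y788.HA

/-- The level of the m-th leg. -/
def lev (m : ℕ) : ℕ := 2 * (m / 3)

lemma lev_add (m : ℕ) : lev (m + 3) = lev m + 2 := by
  unfold lev; omega

section

variable {k : Type} [CommRing k] {I : Type} [Fintype I] [DecidableEq I]
variable (T : ℕ → I → I → I → k)
variable {A : Type} [Ring A] [Algebra k A] (x : ℕ → I → I → A)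

/-- Evaluation relation. -/
def evr (i : ℕ) (a b : I) : A := ∑ o, x (i + 1) o a * x i o b - (if a = b then 1 else 0)

/-- Coevaluation relation. -/
def cor (i : ℕ) (o o' : I) : A := ∑ a, x i o a * x (i + 1) o' a - (if o = o' then 1 else 0)

/-- Relation of the form on even legs. -/
def Er (m : ℕ) (c a b : I) : A :=
  ∑ q : I × I, T m q.1 q.2 c • (x (lev (m + 2)) q.1 a * x (lev (m + 1)) q.2 b) -
    ∑ l, T m a b l • x (lev m + 1) c l

/-- Relation of the form on odd legs. -/
def Ir (m : ℕ) (c o o' : I) : A :=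
  ∑ q : I × I, T (m + 2) q.1 q.2 c • (x (lev m + 1) o q.2 * x (lev (m + 1) + 1) o' q.1) -
    ∑ l, T (m + 2) o' o l • x (lev (m + 2)) l c

variable {T} {x}

lemma id2 (i : ℕ) (a o' : I) :
    ∑ o, x (i + 1) o a * cor x i o o' - ∑ b, evr x i a b * x (i + 1) o' b = 0 := by
  simp only [cor, evr, mul_sub, sub_mul, Finset.mul_sum, Finset.sum_mul, Finset.sum_sub_distrib,
    mul_ite, ite_mul, mul_one, one_mul, mul_zero, zero_mul, Finset.sum_ite_eq,
    Finset.sum_ite_eq', Finset.mem_univ, if_true, mul_assoc]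
  rw [Finset.sum_comm]
  abel

lemma id5 (i : ℕ) (o b : I) :
    ∑ o', cor x i o o' * x i o' b - ∑ a, x i o a * evr x i a b = 0 := by
  simp only [cor, evr, mul_sub, sub_mul, Finset.mul_sum, Finset.sum_mul, Finset.sum_sub_distrib,
    mul_ite, ite_mul, mul_one, one_mul, mul_zero, zero_mul, Finset.sum_ite_eq,
    Finset.sum_ite_eq', Finset.mem_univ, if_true, mul_assoc]
  rw [Finset.sum_comm]
  abel

section rot

variable (rot : ∀ m u v w, T (m + 1) u v w = T m v w u)

include rot

lemma rot2 (m : ℕ) (u v w : I) : T (m + 2) u v w = T m w u v := by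
  rw [rot (m + 1), rot m]

lemma id10 (m : ℕ) (c a o' : I) :
    ∑ q : I × I, T m q.1 q.2 c • (x (lev (m + 2)) q.1 a * cor x (lev (m + 1)) q.2 o') -
      ∑ b, Er T x m c a b * x (lev (m + 1) + 1) o' b = Ir T x m a c o' := by
  simp only [cor, Er, Ir, mul_sub, sub_mul, Finset.mul_sum, Finset.sum_mul,
    Finset.sum_sub_distrib, smul_sub, Finset.smul_sum, smul_mul_assoc, mul_assoc]
  rw [Finset.sum_comm (s := (Finset.univ : Finset I)) (t := (Finset.univ : Finset (I × I)))]
  have e1 : ∑ q : I × I, T m q.1 q.2 c • (x (lev (m + 2)) q.1 a * if q.2 = o' then (1 : A) else 0) =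
      ∑ l, T (m + 2) o' c l • x (lev (m + 2)) l a := by
    rw [Fintype.sum_prod_type]
    refine Finset.sum_congr rfl fun l _ => ?_
    rw [Finset.sum_eq_single o']
    · rw [if_pos rfl, mul_one, rot2 rot]
    · intro b _ hb
      rw [if_neg hb, mul_zero, smul_zero]
    · simp
  have e2 : ∑ q : I × I, T (m + 2) q.1 q.2 a • (x (lev m + 1) c q.2 * x (lev (m + 1) + 1) o' q.1) =
      ∑ b, ∑ l, T m a b l • (x (lev m + 1) c l * x (lev (m + 1) + 1) o' b) := by
    rw [Fintype.sum_prod_type]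
    refine Finset.sum_congr rfl fun u _ => Finset.sum_congr rfl fun v _ => ?_
    rw [rot2 rot]
  rw [e1, e2]
  abel

lemma id4 (m : ℕ) (c a o' : I) :
    ∑ o, x (lev m + 1 + 1) o a * Ir T x m c o o' -
      ∑ q : I × I, T (m + 2) q.1 q.2 c • (evr x (lev m + 1) a q.2 * x (lev (m + 1) + 1) o' q.1) =
      - Er T x (m + 1) o' a c := by
  simp only [evr, Er, Ir, mul_sub, sub_mul, Finset.mul_sum, Finset.sum_mul,
    Finset.sum_sub_distrib, smul_sub, Finset.smul_sum, mul_smul_comm, mul_assoc]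
  rw [Finset.sum_comm (s := (Finset.univ : Finset I)) (t := (Finset.univ : Finset (I × I)))]
  have e1 : ∑ q : I × I, T (m + 2) q.1 q.2 c •
      ((if a = q.2 then (1 : A) else 0) * x (lev (m + 1) + 1) o' q.1) =
      ∑ l, T (m + 1) a c l • x (lev (m + 1) + 1) o' l := by
    rw [Fintype.sum_prod_type]
    refine Finset.sum_congr rfl fun l _ => ?_
    rw [Finset.sum_eq_single a]
    · rw [if_pos rfl, one_mul, rot (m + 1)]
    · intro b _ hb
      rw [if_neg (Ne.symm hb), zero_mul, smul_zero]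
    · simp
  have e2 : ∑ q : I × I, T (m + 1) q.1 q.2 o' • (x (lev (m + 1 + 2)) q.1 a * x (lev (m + 1 + 1)) q.2 c) =
      ∑ o, ∑ l, T (m + 2) o' o l • (x (lev m + 1 + 1) o a * x (lev (m + 2)) l c) := by
    rw [Fintype.sum_prod_type]
    refine Finset.sum_congr rfl fun u _ => Finset.sum_congr rfl fun v _ => ?_
    rw [rot (m + 1), show m + 1 + 2 = m + 3 from rfl, lev_add]
  rw [e1, e2]
  abel

lemma id7 (m : ℕ) (c o b : I) :
    ∑ q : I × I, T (m + 1) q.1 q.2 c • (cor x (lev m + 1) o q.1 * x (lev (m + 2)) q.2 b) -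
      ∑ a, x (lev m + 1) o a * Er T x (m + 1) c a b = Ir T x m b o c := by
  simp only [cor, Er, Ir, mul_sub, sub_mul, Finset.mul_sum, Finset.sum_mul,
    Finset.sum_sub_distrib, smul_sub, Finset.smul_sum, mul_smul_comm, mul_assoc]
  rw [Finset.sum_comm (s := (Finset.univ : Finset I)) (t := (Finset.univ : Finset (I × I)))]
  have e1 : ∑ q : I × I, T (m + 1) q.1 q.2 c •
      ((if o = q.1 then (1 : A) else 0) * x (lev (m + 2)) q.2 b) =
      ∑ l, T (m + 2) c o l • x (lev (m + 2)) l b := by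
    rw [Fintype.sum_prod_type_right]
    refine Finset.sum_congr rfl fun l _ => ?_
    rw [Finset.sum_eq_single o]
    · rw [if_pos rfl, one_mul, rot (m + 1)]
    · intro b _ hb
      rw [if_neg (Ne.symm hb), zero_mul, smul_zero]
    · simp
  have e2 : ∑ q : I × I, T (m + 2) q.1 q.2 b • (x (lev m + 1) o q.2 * x (lev (m + 1) + 1) c q.1) =
      ∑ a, ∑ l, T (m + 1) a b l • (x (lev m + 1) o a * x (lev (m + 1) + 1) c l) := by
    rw [Fintype.sum_prod_type_right]
    refine Finset.sum_congr rfl fun u _ => Finset.sum_congr rfl fun v _ => ?_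
    rw [rot (m + 1)]
  have e3 : ∑ q : I × I, ∑ i, T (m + 1) q.1 q.2 c •
      (x (lev m + 1) o i * (x (lev m + 1 + 1) q.1 i * x (lev (m + 2)) q.2 b)) =
      ∑ q : I × I, ∑ i, T (m + 1) q.1 q.2 c •
      (x (lev m + 1) o i * (x (lev (m + 1 + 2)) q.1 i * x (lev (m + 1 + 1)) q.2 b)) := by
    rw [show m + 1 + 2 = m + 3 from rfl, lev_add]
  rw [e1, e2, e3]
  abel

lemma id13 (m : ℕ) (c o b : I) :
    ∑ o', Ir T x m c o o' * x (lev (m + 1)) o' b -
      ∑ q : I × I, T (m + 2) q.1 q.2 c • (x (lev m + 1) o q.2 * evr x (lev (m + 1)) q.1 b) =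
      - Er T x m o c b := by
  simp only [evr, Er, Ir, mul_sub, sub_mul, Finset.mul_sum, Finset.sum_mul,
    Finset.sum_sub_distrib, smul_sub, Finset.smul_sum, smul_mul_assoc, mul_assoc]
  rw [Finset.sum_comm (s := (Finset.univ : Finset I)) (t := (Finset.univ : Finset (I × I)))]
  have e1 : ∑ q : I × I, T (m + 2) q.1 q.2 c •
      (x (lev m + 1) o q.2 * (if q.1 = b then (1 : A) else 0)) =
      ∑ l, T m c b l • x (lev m + 1) o l := by
    rw [Fintype.sum_prod_type_right]
    refine Finset.sum_congr rfl fun l _ => ?_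
    rw [Finset.sum_eq_single b]
    · rw [if_pos rfl, mul_one, rot2 rot]
    · intro b _ hb
      rw [if_neg hb, mul_zero, smul_zero]
    · simp
  have e2 : ∑ q : I × I, T m q.1 q.2 o • (x (lev (m + 2)) q.1 c * x (lev (m + 1)) q.2 b) =
      ∑ o', ∑ l, T (m + 2) o' o l • (x (lev (m + 2)) l c * x (lev (m + 1)) o' b) := by
    rw [Fintype.sum_prod_type_right]
    refine Finset.sum_congr rfl fun u _ => Finset.sum_congr rfl fun v _ => ?_
    rw [rot2 rot]
  rw [e1, e2]
  abel

lemma id11 (m : ℕ) (a b c : I) :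
    ∑ j, Er T x (m + 1) j a b * x (lev (m + 1)) j c -
      ∑ j, x (lev (m + 3)) j a * Er T x m j b c =
      ∑ l, T m b c l • evr x (lev m + 1) a l - ∑ l, T (m + 1) a b l • evr x (lev (m + 1)) l c := by
  simp only [evr, Er, mul_sub, sub_mul, Finset.mul_sum, Finset.sum_mul,
    Finset.sum_sub_distrib, smul_sub, Finset.smul_sum, smul_mul_assoc, mul_smul_comm, mul_assoc]
  have e1 : ∑ j, ∑ q : I × I, T (m + 1) q.1 q.2 j •
      (x (lev (m + 1 + 2)) q.1 a * (x (lev (m + 1 + 1)) q.2 b * x (lev (m + 1)) j c)) =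
      ∑ j, ∑ q : I × I, T m q.1 q.2 j •
      (x (lev (m + 3)) j a * (x (lev (m + 2)) q.1 b * x (lev (m + 1)) q.2 c)) := by
    simp only [Fintype.sum_prod_type]
    rw [Finset.sum_comm]
    refine Finset.sum_congr rfl fun u _ => ?_
    rw [Finset.sum_comm]
    refine Finset.sum_congr rfl fun v _ => Finset.sum_congr rfl fun w _ => ?_
    rw [rot m]
  have e2 : ∑ l, T m b c l • (if a = l then (1 : A) else 0) =
      ∑ l, T (m + 1) a b l • (if l = c then (1 : A) else 0) := by
    simp [rot m]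
  have e3 : ∑ j, ∑ l, T (m + 1) a b l • (x (lev (m + 1) + 1) j l * x (lev (m + 1)) j c) =
      ∑ l, ∑ j, T (m + 1) a b l • (x (lev (m + 1) + 1) j l * x (lev (m + 1)) j c) :=
    Finset.sum_comm
  have e4 : ∑ j, ∑ l, T m b c l • (x (lev (m + 3)) j a * x (lev m + 1) j l) =
      ∑ l, ∑ j, T m b c l • (x (lev m + 1 + 1) j a * x (lev m + 1) j l) := by
    rw [Finset.sum_comm, lev_add]
  rw [e1, e2, e3, e4]
  abel

lemma id16 (m : ℕ) (a b c : I) :
    ∑ j, Ir T x m j a b * x (lev (m + 2) + 1) c j -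
      ∑ j, x (lev m + 1) a j * Ir T x (m + 1) j b c =
      ∑ l, T (m + 3) c b l • cor x (lev m + 1) a l -
        ∑ l, T (m + 2) b a l • cor x (lev (m + 2)) l c := by
  simp only [cor, Ir, mul_sub, sub_mul, Finset.mul_sum, Finset.sum_mul,
    Finset.sum_sub_distrib, smul_sub, Finset.smul_sum, smul_mul_assoc, mul_smul_comm, mul_assoc]
  have e1 : ∑ j, ∑ q : I × I, T (m + 2) q.1 q.2 j •
      (x (lev m + 1) a q.2 * (x (lev (m + 1) + 1) b q.1 * x (lev (m + 2) + 1) c j)) =
      ∑ j, ∑ q : I × I, T (m + 1 + 2) q.1 q.2 j •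
      (x (lev m + 1) a j * (x (lev (m + 1) + 1) b q.2 * x (lev (m + 1 + 1) + 1) c q.1)) := by
    simp only [Fintype.sum_prod_type_right]
    rw [Finset.sum_comm]
    refine Finset.sum_congr rfl fun u _ => ?_
    rw [Finset.sum_comm]
    refine Finset.sum_congr rfl fun v _ => Finset.sum_congr rfl fun w _ => ?_
    rw [show m + 1 + 2 = (m + 2) + 1 from rfl, rot (m + 2)]
  have e2 : ∑ l, T (m + 3) c b l • (if a = l then (1 : A) else 0) =
      ∑ l, T (m + 2) b a l • (if l = c then (1 : A) else 0) := by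
    simp [rot (m + 2)]
  have e3 : ∑ j, ∑ l, T (m + 2) b a l • (x (lev (m + 2)) l j * x (lev (m + 2) + 1) c j) =
      ∑ l, ∑ j, T (m + 2) b a l • (x (lev (m + 2)) l j * x (lev (m + 2) + 1) c j) :=
    Finset.sum_comm
  have e4 : ∑ j, ∑ l, T (m + 1 + 2) c b l • (x (lev m + 1) a j * x (lev (m + 1 + 2)) l j) =
      ∑ l, ∑ j, T (m + 3) c b l • (x (lev m + 1) a j * x (lev m + 1 + 1) l j) := by
    rw [Finset.sum_comm, show m + 1 + 2 = m + 3 from rfl, lev_add]
  rw [e1, e2, e3, e4]
  abel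

end rot

/-! Naturality -/

variable {B : Type} [Ring B] [Algebra k B] (f : A →ₐ[k] B)

lemma map_evr (i : ℕ) (a b : I) : f (evr x i a b) = evr (fun i o a => f (x i o a)) i a b := by
  simp only [evr, map_sub, map_sum, map_mul, apply_ite f, map_one, map_zero]

lemma map_cor (i : ℕ) (a b : I) : f (cor x i a b) = cor (fun i o a => f (x i o a)) i a b := by
  simp only [cor, map_sub, map_sum, map_mul, apply_ite f, map_one, map_zero]

lemma map_Er (m : ℕ) (c a b : I) :
    f (Er T x m c a b) = Er T (fun i o a => f (x i o a)) m c a b := by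
  simp only [Er, map_sub, map_sum, map_mul, map_smul]

lemma map_Ir (m : ℕ) (c a b : I) :
    f (Ir T x m c a b) = Ir T (fun i o a => f (x i o a)) m c a b := by
  simp only [Ir, map_sub, map_sum, map_mul, map_smul]

end

end Pool.Agent.Y788.HA
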